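import Mathlib

namespace Pool.Agent.Results.MP_e1d516_co.CodeTwelve

/-- The permutation automorphism group (as a set of permutations) of a binary linear code `C` of
length `n`: the permutations `β` with `C^β = C`, where `c^β = (c_{β⁻¹(1)}, …, c_{β⁻¹(n)})`. -/
def PAut {n : ℕ} (C : Submodule (ZMod 2) (Fin n → ZMod 2)) : Set (Equiv.Perm (Fin n)) :=
  {β | (fun c : Fin n → ZMod 2 => c ∘ β.symm) '' (C : Set (Fin n → ZMod 2)) = C}

/-! ### The code -/

/-- redundancy part of the generator matrix -/
def A : Fin 6 → Fin 6 → ZMod 2 :=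
  ![![1,1,0,1,1,0], ![1,1,1,0,0,1], ![0,1,0,0,1,0], ![1,0,0,0,0,1], ![0,1,1,1,1,0], ![1,0,1,1,0,1]]

/-- the `k`-th row of the systematic generator matrix `[I | A]` -/
def G (k : Fin 6) (j : Fin 12) : ZMod 2 :=
  if h : (j : ℕ) < 6 then (if (j : ℕ) = k then 1 else 0) else A k ⟨j - 6, by omega⟩

/-- encoder -/
def enc (u : Fin 6 → ZMod 2) (j : Fin 12) : ZMod 2 :=
  u 0 * G 0 j + u 1 * G 1 j + u 2 * G 2 j + u 3 * G 3 j + u 4 * G 4 j + u 5 * G 5 j

/-- information part -/
def info (c : Fin 12 → ZMod 2) (k : Fin 6) : ZMod 2 := c ⟨k, by omega⟩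

/-- the code -/
def C : Submodule (ZMod 2) (Fin 12 → ZMod 2) where
  carrier := {c | ∀ j, c j = enc (info c) j}
  add_mem' := by
    intro a b ha hb j
    have h1 := ha j
    have h2 := hb j
    simp only [Pi.add_apply, enc, info] at *
    rw [h1, h2]; ring
  zero_mem' := by
    intro j
    simp [enc, info]
  smul_mem' := by
    intro r a ha j
    have h1 := ha j
    simp only [Pi.smul_apply, smul_eq_mul, enc, info] at *
    rw [h1]; ring

lemma info_enc (u : Fin 6 → ZMod 2) : info (enc u) = u := by
  funext k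
  fin_cases k <;> simp [info, enc, G]

lemma enc_mem (u : Fin 6 → ZMod 2) : enc u ∈ C := by
  intro j
  rw [info_enc]

lemma mem_iff (c : Fin 12 → ZMod 2) : c ∈ C ↔ c = enc (info c) := by
  constructor
  · intro h; funext j; exact h j
  · intro h; rw [h]; exact enc_mem _

/-- the involution exchanging `2i` and `2i+1` -/
def flip (i : Fin 12) : Fin 12 := if h : (i : ℕ) % 2 = 0 then ⟨i + 1, by omega⟩ else ⟨i - 1, by omega⟩

lemma flip_flip : ∀ i, flip (flip i) = i := by decide

/-- the same as a permutation -/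
def γ : Equiv.Perm (Fin 12) := ⟨flip, flip, flip_flip, flip_flip⟩

/-- weight -/
def wt (c : Fin 12 → ZMod 2) : ℕ := (Finset.univ.filter (fun i => c i = 1)).card

/-- number of codewords of weight `w` with a one at coordinate `i` -/
def cnt (w : ℕ) (i : Fin 12) : ℕ :=
  ((Finset.univ : Finset (Fin 6 → ZMod 2)).filter (fun u => wt (enc u) = w ∧ enc u i = 1)).card

lemma wt_comp (c : Fin 12 → ZMod 2) (β : Equiv.Perm (Fin 12)) : wt (c ∘ β) = wt c := by
  unfold wt
  apply Finset.card_bij (fun i _ => β i)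
  · intro i hi
    simpa using hi
  · intro i _ j _ h
    exact β.injective h
  · intro j hj
    refine ⟨β.symm j, ?_, by simp⟩
    simpa using hj

lemma mem_of_mem {β : Equiv.Perm (Fin 12)} (hβ : β ∈ PAut C) {c : Fin 12 → ZMod 2} (hc : c ∈ C) :
    c ∘ β.symm ∈ C := by
  have h : (fun c : Fin 12 → ZMod 2 => c ∘ β.symm) '' (C : Set (Fin 12 → ZMod 2)) = C := hβ
  have : c ∘ β.symm ∈ (C : Set (Fin 12 → ZMod 2)) := by
    rw [← h]; exact ⟨c, hc, rfl⟩
  exact this

lemma mem_of_mem' {β : Equiv.Perm (Fin 12)} (hβ : β ∈ PAut C) {c : Fin 12 → ZMod 2} (hc : c ∈ C) :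
    c ∘ β ∈ C := by
  have h : (fun c : Fin 12 → ZMod 2 => c ∘ β.symm) '' (C : Set (Fin 12 → ZMod 2)) = C := hβ
  have h1 : c ∈ (fun c : Fin 12 → ZMod 2 => c ∘ β.symm) '' (C : Set (Fin 12 → ZMod 2)) := by
    rw [h]; exact hc
  obtain ⟨d, hd, hd2⟩ := h1
  have : c ∘ β = d := by
    rw [← hd2]; funext i; simp
  rw [this]; exact hd

lemma cnt_eq {β : Equiv.Perm (Fin 12)} (hβ : β ∈ PAut C) (w : ℕ) (i : Fin 12) :
    cnt w (β i) = cnt w i := by
  unfold cnt
  apply Finset.card_bij (fun u _ => info (enc u ∘ β))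
  · intro u hu
    rw [Finset.mem_filter] at hu ⊢
    have h1 : enc (info (enc u ∘ β)) = enc u ∘ β := ((mem_iff _).1 (mem_of_mem' hβ (enc_mem u))).symm
    refine ⟨Finset.mem_univ _, ?_, ?_⟩
    · rw [h1, wt_comp]; exact hu.2.1
    · rw [h1]; exact hu.2.2
  · intro u _ v _ h
    have h1 : enc (info (enc u ∘ β)) = enc u ∘ β := ((mem_iff _).1 (mem_of_mem' hβ (enc_mem u))).symm
    have h2 : enc (info (enc v ∘ β)) = enc v ∘ β := ((mem_iff _).1 (mem_of_mem' hβ (enc_mem v))).symm
    have h3 : enc u ∘ β = enc v ∘ β := by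
      rw [← h1, ← h2]
      exact congrArg enc h
    have h4 : enc u = enc v := by
      funext j
      have := congrFun h3 (β.symm j)
      simpa using this
    rw [← info_enc u, ← info_enc v, h4]
  · intro v hv
    rw [Finset.mem_filter] at hv
    have h1 : enc (info (enc v ∘ β.symm)) = enc v ∘ β.symm :=
      ((mem_iff _).1 (mem_of_mem hβ (enc_mem v))).symm
    refine ⟨info (enc v ∘ β.symm), ?_, ?_⟩
    · rw [Finset.mem_filter]
      refine ⟨Finset.mem_univ _, ?_, ?_⟩
      · rw [h1, wt_comp]; exact hv.2.1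
      · rw [h1]; simpa using hv.2.2
    · rw [h1]
      have : (enc v ∘ β.symm) ∘ β = enc v := by funext j; simp
      rw [this, info_enc]

set_option maxRecDepth 100000 in
lemma cnt_val : ∀ i : Fin 12, cnt 4 i = ![2,2,3,3,3,3,2,2,4,4,0,0] i ∧
    cnt 5 i = ![7,7,5,5,8,8,5,5,7,7,8,8] i := by
  decide +kernel

lemma sep : ∀ i j : Fin 12,
    ![2,2,3,3,3,3,2,2,4,4,0,0] i = (![2,2,3,3,3,3,2,2,4,4,0,0] : Fin 12 → ℕ) j →
    ![7,7,5,5,8,8,5,5,7,7,8,8] i = (![7,7,5,5,8,8,5,5,7,7,8,8] : Fin 12 → ℕ) j →
    i = j ∨ i = flip j := by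
  decide +kernel

lemma apply_cases {β : Equiv.Perm (Fin 12)} (hβ : β ∈ PAut C) (i : Fin 12) :
    β i = i ∨ β i = flip i := by
  apply sep
  · rw [← (cnt_val i).1, ← (cnt_val (β i)).1, cnt_eq hβ]
  · rw [← (cnt_val i).2, ← (cnt_val (β i)).2, cnt_eq hβ]

/-- the block of a coordinate -/
def blk (i : Fin 12) : Fin 6 := ⟨i / 2, by omega⟩

/-- the `k`-th unit vector -/
def unit (k : Fin 6) (l : Fin 6) : ZMod 2 := if l = k then 1 else 0

/-- permute the coordinates of a vector according to `x` -/
def act (x : Fin 6 → Bool) (c : Fin 12 → ZMod 2) (i : Fin 12) : ZMod 2 :=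
  c (if x (blk i) then flip i else i)

set_option maxRecDepth 100000 in
lemma only_two : ∀ x : Fin 6 → Bool,
    (∀ k : Fin 6, ∀ j : Fin 12, act x (enc (unit k)) j = enc (info (act x (enc (unit k)))) j) →
    (∀ i, x i = true) ∨ (∀ i, x i = false) := by
  decide +kernel

lemma flip_ne : ∀ i, flip i ≠ i := by decide

lemma blk_flip : ∀ i, blk (flip i) = blk i := by decide

lemma blk_cases : ∀ i j, blk i = blk j → i = j ∨ i = flip j := by decide

lemma PAut_eq : PAut C = {1, γ} := by
  apply Set.eq_of_subset_of_subset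
  · intro β hβ
    -- the choice vector
    let x : Fin 6 → Bool := fun k => decide (β ⟨2 * k, by omega⟩ = flip ⟨2 * k, by omega⟩)
    have hx : ∀ i, β i = if x (blk i) then flip i else i := by
      intro i
      have h0 : blk ⟨2 * (blk i : ℕ), by omega⟩ = blk i := by
        apply Fin.ext; simp [blk]
      by_cases hxi : β ⟨2 * (blk i : ℕ), by omega⟩ = flip ⟨2 * (blk i : ℕ), by omega⟩
      · have hxt : x (blk i) = true := by simpa [x] using hxi
        rw [hxt, if_pos rfl]
        rcases blk_cases _ _ h0 with h | h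
        · rw [h] at hxi; exact hxi
        · rw [h, flip_flip] at hxi
          rcases apply_cases hβ i with h2 | h2
          · exfalso
            have : β (flip i) = β i := by rw [hxi, h2]
            exact flip_ne i (β.injective this)
          · exact h2
      · have hxt : x (blk i) = false := by simpa [x] using hxi
        rw [hxt]
        simp only [Bool.false_eq_true, if_false]
        have hyi : β ⟨2 * (blk i : ℕ), by omega⟩ = ⟨2 * (blk i : ℕ), by omega⟩ :=
          (apply_cases hβ _).resolve_right hxi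
        rcases blk_cases _ _ h0 with h | h
        · rw [h] at hyi; exact hyi
        · rw [h] at hyi
          rcases apply_cases hβ i with h2 | h2
          · exact h2
          · exfalso
            have : β (flip i) = β i := by rw [hyi, h2]
            exact flip_ne i (β.injective this)
    have hact : ∀ c, act x c = c ∘ β := by
      intro c; funext i
      simp only [act, Function.comp]
      rw [hx i]
    have h3 := only_two x (by
      intro k j
      rw [hact]
      have := (mem_iff _).1 (mem_of_mem' hβ (enc_mem (unit k)))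
      exact congrFun this j)
    rcases h3 with h3 | h3
    · right
      apply Equiv.ext
      intro i
      rw [hx i, h3, if_pos rfl]
      rfl
    · left
      apply Equiv.ext
      intro i
      rw [hx i, h3]
      simp
  · intro β hβ
    have key : ∀ c ∈ C, c ∘ flip ∈ C := by
      intro c hc
      rw [mem_iff] at hc
      rw [hc]
      generalize info c = u
      intro j
      fin_cases j <;> simp [enc, info, flip, G, A] <;> ring_nf <;>
        (try simp [show (2 : ZMod 2) = 0 from rfl, show (3 : ZMod 2) = 1 from rfl,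
          show (4 : ZMod 2) = 0 from rfl]) <;> ring
    rcases hβ with rfl | hβ
    · change (fun c : Fin 12 → ZMod 2 => c ∘ (1 : Equiv.Perm (Fin 12)).symm) '' _ = _
      have : (fun c : Fin 12 → ZMod 2 => c ∘ (1 : Equiv.Perm (Fin 12)).symm) = id := by
        funext c; rfl
      rw [this, Set.image_id]
    · rw [Set.mem_singleton_iff] at hβ
      subst hβ
      change (fun c : Fin 12 → ZMod 2 => c ∘ γ.symm) '' _ = _
      ext c
      constructor
      · rintro ⟨d, hd, rfl⟩
        exact key d hd
      · intro hc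
        refine ⟨c ∘ flip, key c hc, ?_⟩
        funext i
        change c (flip (flip i)) = c i
        rw [flip_flip]

/-- There is a binary linear code of length `12` whose permutation automorphism group consists of
the identity and the fixed-point-free involution `(1,2)(3,4)⋯(11,12)`. -/
theorem result : ∃ (m : ℕ) (C : Submodule (ZMod 2) (Fin (2 * m) → ZMod 2))
    (σ : Equiv.Perm (Fin (2 * m))), 2 ≤ m ∧
    (∀ i : Fin (2 * m), (σ i : ℕ) = if (i : ℕ) % 2 = 0 then (i : ℕ) + 1 else (i : ℕ) - 1) ∧
    PAut C = {1, σ} := by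
  refine ⟨6, C, γ, by norm_num, ?_, PAut_eq⟩
  decide

end Pool.Agent.Results.MP_e1d516_co.CodeTwelve
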